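import Pool.Agent.Helper35.MS.StE

/-!
Project MS (MP_925021_gt), module LEV: level energies.
-/

set_option autoImplicit false

namespace Helper47.MS

open Helper35.MS Helper35.PI Helper35.PI2 Helper32.CL
open scoped ContDiff Manifold Topology ENNReal BigOperators
open MeasureTheory Set Filter

private noncomputable def psi (k x : ℝ) : ℝ := Real.sqrt (x ^ 2 + k ^ 2) - k

private lemma psi_smooth (k : ℝ) (hk : 0 < k) : ContDiff ℝ ∞ (psi k) := by
  unfold psi
  refine ContDiff.sub ?_ contDiff_const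
  refine ContDiff.sqrt ?_ (fun x => by positivity)
  fun_prop

private lemma inner_deriv (k x : ℝ) : HasDerivAt (fun x : ℝ => x ^ 2 + k ^ 2) (2 * x) x := by
  simpa using (hasDerivAt_pow 2 x).add_const (k ^ 2)

private lemma sqrt_deriv (k : ℝ) (hk : 0 < k) (x : ℝ) :
    HasDerivAt (fun x : ℝ => Real.sqrt (x ^ 2 + k ^ 2)) (x / Real.sqrt (x ^ 2 + k ^ 2)) x := by
  have h2 := (inner_deriv k x).sqrt (by positivity)
  convert h2 using 1
  have h3 : 0 < Real.sqrt (x ^ 2 + k ^ 2) := Real.sqrt_pos.2 (by positivity)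
  field_simp

private lemma psi_deriv (k : ℝ) (hk : 0 < k) :
    deriv (psi k) = fun x => x / Real.sqrt (x ^ 2 + k ^ 2) := by
  funext x
  exact ((sqrt_deriv k hk x).sub_const k).deriv

private lemma psi_deriv2 (k : ℝ) (hk : 0 < k) (x : ℝ) : 0 ≤ deriv (deriv (psi k)) x := by
  rw [psi_deriv k hk]
  have h3 : 0 < Real.sqrt (x ^ 2 + k ^ 2) := Real.sqrt_pos.2 (by positivity)
  have h1 := (hasDerivAt_id x).div (sqrt_deriv k hk x) h3.ne'
  have h2 : deriv (fun x => x / Real.sqrt (x ^ 2 + k ^ 2)) x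
      = (1 * Real.sqrt (x ^ 2 + k ^ 2) - x * (x / Real.sqrt (x ^ 2 + k ^ 2)))
        / Real.sqrt (x ^ 2 + k ^ 2) ^ 2 := h1.deriv
  rw [h2]
  refine div_nonneg ?_ (by positivity)
  have h4 : Real.sqrt (x ^ 2 + k ^ 2) ^ 2 = x ^ 2 + k ^ 2 := Real.sq_sqrt (by positivity)
  have h5 : x * (x / Real.sqrt (x ^ 2 + k ^ 2)) = x ^ 2 / Real.sqrt (x ^ 2 + k ^ 2) := by ring
  rw [h5, sub_nonneg, div_le_iff₀ h3]
  nlinarith [sq_nonneg k]

/-- the pointwise inequality -/
private lemma ptw (k δ Y th g D2 G L : ℝ) (hk : 0 < k) (hδ : 0 < δ) (hY : 4 ≤ Y) (hth : 0 ≤ th)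
    (hg : δ * (Y * th) ≤ g) (hD : 0 ≤ D2) (hG : 0 ≤ G) (hL : L ≤ Y ^ 2 + Y * th) :
    Y / Real.sqrt (Y ^ 2 + k ^ 2) * L - D2 * G - Y * (Real.sqrt (Y ^ 2 + k ^ 2) - k)
      ≤ k * Y + g / δ := by
  obtain ⟨s, hs⟩ : ∃ s, s = Real.sqrt (Y ^ 2 + k ^ 2) := ⟨_, rfl⟩
  rw [← hs]
  have h3 : 0 < s := by rw [hs]; exact Real.sqrt_pos.2 (by positivity)
  have h4 : s ^ 2 = Y ^ 2 + k ^ 2 := by rw [hs]; exact Real.sq_sqrt (by positivity)
  have hYs : Y ≤ s := by
    rw [hs]
    exact Real.le_sqrt_of_sq_le (by nlinarith [sq_nonneg k])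
  have h5 : Y / s ≤ 1 := (div_le_one h3).2 hYs
  have h6 : 0 ≤ Y / s := div_nonneg (by linarith) h3.le
  have h7 : Y / s * L ≤ Y / s * (Y ^ 2 + Y * th) := mul_le_mul_of_nonneg_left hL h6
  have h8 : Y / s * (Y * th) ≤ Y * th := by
    have : 0 ≤ Y * th := mul_nonneg (by linarith) hth
    nlinarith
  have h9 : Y * th ≤ g / δ := by
    rw [le_div_iff₀ hδ]
    linarith
  have h10 : Y / s * Y ^ 2 ≤ Y * s := by
    rw [div_mul_eq_mul_div, div_le_iff₀ h3]
    have : 0 ≤ Y * k ^ 2 := mul_nonneg (by linarith) (sq_nonneg k)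
    have e : Y * s * s = Y * s ^ 2 := by ring
    rw [e, h4]
    nlinarith
  have h11 : 0 ≤ D2 * G := mul_nonneg hD hG
  nlinarith

theorem hLEV (hENE : StENE) (hEVC : StEVC) (hTDJ : StTDJ) (hFVJ : StFVJ) (_hPRJ : StPRJ)
    (hMUJ : StMUJ) : StLEV := by
  intro N M _ _ _ _ _ _ _ J F c χ δ hF hP k t₁ t₂ hk h12 hJ
  have hψ := psi_smooth k hk
  obtain ⟨hE, hG⟩ := hEVC N M J F hF.mcf.toIsImmJ (YF F) (psi k) (fun _ => 0) (fun _ => 0)
    hP.eY hψ (fun t _ => hasDerivAt_const t 0) continuousOn_const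
  obtain ⟨v, hv⟩ : ∃ v : M → ℝ → ℝ, v = fun q t => psi k (YF F q t + 0) := ⟨_, rfl⟩
  have hE' : Evo J F v := by rw [hv]; exact hE
  obtain ⟨s, -, hmu⟩ := hMUJ 2 N M J F c χ hF.toJ
  obtain ⟨-, hTD⟩ := hTDJ 2 N M J F c χ hF
  have hslice : ∀ (g : M → ℝ → ℝ), CSTJ J g → ∀ t ∈ J, Continuous (fun q => g q t) := by
    intro g hg t ht
    have h1 : Continuous (fun q : M => ((q, t) : M × ℝ)) := by fun_prop
    exact hg.comp_continuous h1 (fun q => ⟨mem_univ _, ht⟩)
  have hYc : ∀ t ∈ J, Continuous (fun q => YF F q t) := hslice _ hP.eY.c0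
  -- derivative of zI
  have hz : ∀ t ∈ J, ∃ D : ℝ, HasDerivAt (zI k F c χ) D t ∧
      D ≤ k * wI F c χ t + dI F c χ t / δ := by
    intro t ht
    have h1 := hTD v (fun q t => deriv (fun s => v q s) t) hE'.c0 hE'.c1 hE'.hd t ht
    have h2 : (fun t => ∫ q, v q t ∂muM 2 F c χ t) = zI k F c χ := by
      funext t
      simp only [hv, psi, add_zero, zI]
    rw [h2] at h1
    refine ⟨_, h1, ?_⟩
    obtain ⟨hc, hi⟩ := hFVJ 2 N M J F c χ hF.toJ t ht (gdM 2 F t (fun q => v q t)) (hE'.gr t ht)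
    have hi' : ∫ q, lapF F v q t ∂muM 2 F c χ t = 0 := by
      rw [← hi]
      refine integral_congr_ae (Filter.Eventually.of_forall fun q => ?_)
      simp only [lapF, hE'.og t ht q, add_zero]
    have hlc : Continuous (fun q => lapF F v q t) := hc
    have hlint : Integrable (fun q => lapF F v q t) (muM 2 F c χ t) := ((hmu t ht).2.2 _ hlc).1
    have hbig : Continuous (fun q => deriv (fun s => v q s) t
        - ‖HH (n := 2) F q t‖ ^ 2 * v q t) :=
      (hslice _ hE'.c1 t ht).sub ((hYc t ht).mul (hslice _ hE'.c0 t ht))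
    have hbint := ((hmu t ht).2.2 _ hbig).1
    have hgc : Continuous (fun q => g3F F q t) := (hENE N M J F c χ hF t ht).1
    have hgint := ((hmu t ht).2.2 _ hgc).1
    have hYint := ((hmu t ht).2.2 _ (hYc t ht)).1
    have h3 : ∫ q, (deriv (fun s => v q s) t - ‖HH (n := 2) F q t‖ ^ 2 * v q t) ∂muM 2 F c χ t
        = ∫ q, ((deriv (fun s => v q s) t - ‖HH (n := 2) F q t‖ ^ 2 * v q t)
          - lapF F v q t) ∂muM 2 F c χ t := by
      rw [integral_sub hbint hlint, hi', sub_zero]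
    have h4 : k * wI F c χ t + dI F c χ t / δ
        = ∫ q, (k * YF F q t + g3F F q t / δ) ∂muM 2 F c χ t := by
      rw [integral_add (hYint.const_mul k) (hgint.div_const δ), integral_const_mul,
        integral_div]
      rfl
    rw [h3, h4]
    refine integral_mono (hbint.sub hlint) ((hYint.const_mul k).add (hgint.div_const δ)) ?_
    intro q
    obtain ⟨-, h6⟩ := hG q t ht
    have h7 : htF F v q t = deriv (psi k) (YF F q t + 0) * (htF F (YF F) q t + 0)
        - deriv (deriv (psi k)) (YF F q t + 0) * ‖gdM 2 F t (fun q => YF F q t) q‖ ^ 2 := by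
      rw [hv]
      exact h6
    have h8 : deriv (fun s => v q s) t - lapF F v q t = htF F v q t := rfl
    have h9 := ptw k δ (YF F q t) (thF 2 F q t) (g3F F q t)
      (deriv (deriv (psi k)) (YF F q t)) (‖gdM 2 F t (fun q => YF F q t) q‖ ^ 2)
      (htF F (YF F) q t) hk hP.δ0 (hP.y4 q t ht) (hP.th0 q t ht) (hP.g1 q t ht)
      (psi_deriv2 k hk _) (by positivity) (hP.hY q t ht)
    have h10 : deriv (psi k) (YF F q t) = YF F q t / Real.sqrt (YF F q t ^ 2 + k ^ 2) := by
      rw [psi_deriv k hk]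
    have h11 : v q t = Real.sqrt (YF F q t ^ 2 + k ^ 2) - k := by
      rw [hv]
      simp only [psi, add_zero]
    have h12 : ‖HH (n := 2) F q t‖ ^ 2 = YF F q t := rfl
    simp only [add_zero] at h7
    rw [h10] at h7
    show (deriv (fun s => v q s) t - ‖HH (n := 2) F q t‖ ^ 2 * v q t) - lapF F v q t
      ≤ k * YF F q t + g3F F q t / δ
    rw [h12, h11]
    have h13 : deriv (fun s => v q s) t = htF F v q t + lapF F v q t := by
      rw [← h8]
      ring
    rw [h13, h7]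
    linarith
  -- monotonicity of wI
  have hwd : ∀ t ∈ J, HasDerivAt (wI F c χ) (-dI F c χ t) t :=
    fun t ht => (hENE N M J F c χ hF t ht).2.2.1
  have hed : ∀ t ∈ J, HasDerivAt (eI F c χ) (-dI F c χ t) t :=
    fun t ht => (hENE N M J F c χ hF t ht).2.1
  have hd0 : ∀ t ∈ J, 0 ≤ dI F c χ t := fun t ht => integral_nonneg fun q => hP.g0 q t ht
  have hcvx : Convex ℝ (Icc t₁ t₂) := convex_Icc t₁ t₂
  have hint : interior (Icc t₁ t₂) ⊆ J := interior_subset.trans hJ
  have hwa : AntitoneOn (wI F c χ) (Icc t₁ t₂) := by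
    refine antitoneOn_of_deriv_nonpos hcvx
      (fun t ht => (hwd t (hJ ht)).continuousAt.continuousWithinAt)
      (fun t ht => (hwd t (hint ht)).differentiableAt.differentiableWithinAt) ?_
    intro t ht
    rw [(hwd t (hint ht)).deriv]
    linarith [hd0 t (hint ht)]
  choose! D hD1 hD2 using hz
  have hGd : ∀ t ∈ J, HasDerivAt (fun t => zI k F c χ t + eI F c χ t / δ
      - k * wI F c χ t₁ * (t - t₁)) (D t + (-dI F c χ t) / δ - k * wI F c χ t₁ * 1) t := by
    intro t ht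
    exact ((hD1 t ht).add ((hed t ht).div_const δ)).sub
      (((hasDerivAt_id t).sub_const t₁).const_mul (k * wI F c χ t₁))
  have hGa : AntitoneOn (fun t => zI k F c χ t + eI F c χ t / δ
      - k * wI F c χ t₁ * (t - t₁)) (Icc t₁ t₂) := by
    refine antitoneOn_of_deriv_nonpos hcvx
      (fun t ht => (hGd t (hJ ht)).continuousAt.continuousWithinAt)
      (fun t ht => (hGd t (hint ht)).differentiableAt.differentiableWithinAt) ?_
    intro t ht
    rw [(hGd t (hint ht)).deriv]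
    have h1 := hD2 t (hint ht)
    have h2 := hwa (left_mem_Icc.2 h12) (interior_subset ht) (interior_subset ht).1
    have h3 : k * wI F c χ t ≤ k * wI F c χ t₁ := mul_le_mul_of_nonneg_left h2 hk.le
    have h4 : (-dI F c χ t) / δ = -(dI F c χ t / δ) := by ring
    rw [h4]
    linarith
  have h1 := hGa (left_mem_Icc.2 h12) (right_mem_Icc.2 h12) h12
  simp only [sub_self, mul_zero, sub_zero] at h1
  linarith

end Helper47.MS
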